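import Mathlib

/-!
# Condition (N) does not imply that `ℤ_(p)G` is semiperfect

`G` is the dicyclic group of order twelve (`QuaternionGroup 3` in Mathlib) and `p = 2`.
-/

namespace Pool.Agent.Results.MP_70eb0a_al.DicyclicTwelve

/-- The localization `ℤ_(p)`: the rational numbers whose denominator is prime to `p`. -/
def Zloc (p : ℕ) [hp : Fact p.Prime] : Subring ℚ where
  carrier := {q | ¬ p ∣ q.den}
  one_mem' := by
    show ¬ p ∣ (1 : ℚ).den
    simpa using hp.out.one_lt.ne'
  zero_mem' := by
    show ¬ p ∣ (0 : ℚ).den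
    simpa using hp.out.one_lt.ne'
  mul_mem' := by
    intro a b ha hb h
    exact (hp.out.dvd_mul.1 (h.trans (Rat.mul_den_dvd a b))).elim ha hb
  add_mem' := by
    intro a b ha hb h
    exact (hp.out.dvd_mul.1 (h.trans (Rat.add_den_dvd a b))).elim ha hb
  neg_mem' := by
    intro a ha
    show ¬ p ∣ (-a).den
    rwa [Rat.neg_den]

/-- A ring is semiperfect if `R / J(R)` is semisimple (Artinian) and idempotents lift modulo the
Jacobson radical `J(R)`. -/
def IsSemiperfect (R : Type) [Ring R] : Prop :=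
  IsSemisimpleRing (R ⧸ Ring.jacobson R) ∧
    ∀ e : R ⧸ Ring.jacobson R, IsIdempotentElem e →
      ∃ f : R, IsIdempotentElem f ∧ Ideal.Quotient.mk (Ring.jacobson R) f = e

/-- A module is indecomposable if it is nonzero and is not the direct sum of two nonzero
submodules. -/
def IsIndecomposable (R : Type) [Ring R] (P : Type) [AddCommGroup P] [Module R P] : Prop :=
  Nontrivial P ∧ ∀ A B : Submodule R P, IsCompl A B → A = ⊥ ∨ B = ⊥

/-- The finitely generated `R`-modules. -/
structure FGMod (R : Type) [Ring R] : Type 1 where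
  /-- the underlying type -/
  carrier : Type
  [grp : AddCommGroup carrier]
  [mod : Module R carrier]
  [fin : Module.Finite R carrier]

attribute [instance] FGMod.grp FGMod.mod FGMod.fin

/-- The relations `[B] - [A] - [C]`, one for every short exact sequence `0 → A → B → C → 0` of
finitely generated `R`-modules. -/
def relations (R : Type) [Ring R] : AddSubgroup (FreeAbelianGroup (FGMod R)) :=
  AddSubgroup.closure {x | ∃ (A B C : FGMod R) (f : A.carrier →ₗ[R] B.carrier)
    (g : B.carrier →ₗ[R] C.carrier), Function.Injective f ∧ Function.Exact f g ∧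
      Function.Surjective g ∧
      x = FreeAbelianGroup.of B - FreeAbelianGroup.of A - FreeAbelianGroup.of C}

/-- The Grothendieck group `G_0(R)` of finitely generated `R`-modules modulo short exact
sequences. -/
abbrev G0 (R : Type) [Ring R] : Type 1 := FreeAbelianGroup (FGMod R) ⧸ relations R

/-- The class `[M]` in `G_0(R)` of a finitely generated module `M`. -/
def cls (R : Type) [Ring R] (M : Type) [AddCommGroup M] [Module R M] [Module.Finite R M] : G0 R :=
  QuotientAddGroup.mk (FreeAbelianGroup.of (FGMod.mk M))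

open MonoidAlgebra in
/-- `IsReduction p G V M`: the `𝔽_pG`-module `M` is isomorphic to `L / pL` for some finitely
generated `ℤ_(p)G`-submodule `L` of the `ℚG`-module `V` that spans `V` over `ℚ`.  Here `L` is
given as a `ℤ_(p)G`-module with an embedding `ι` into `V`, and the isomorphism `L / pL ≅ M` is
given by a surjection `π : L → M` with kernel `pL`. -/
def IsReduction (p : ℕ) [Fact p.Prime] (G : Type) [Group G]
    (V : Type) [AddCommGroup V] [Module (MonoidAlgebra ℚ G) V]
    (M : Type) [AddCommGroup M] [Module (MonoidAlgebra (ZMod p) G) M] : Prop :=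
  ∃ (L : Type) (_ : AddCommGroup L) (_ : Module (MonoidAlgebra (Zloc p) G) L)
    (ι : L →+ V) (π : L →+ M),
    Module.Finite (MonoidAlgebra (Zloc p) G) L ∧
    Function.Injective ι ∧
    (∀ (r : Zloc p) (g : G) (l : L), ι (single g r • l) = single g (r : ℚ) • ι l) ∧
    (∀ v : V, ∃ n : ℕ, n ≠ 0 ∧ n • v ∈ Set.range ι) ∧
    Function.Surjective π ∧
    (∀ (g : G) (l : L), π (single g (1 : Zloc p) • l) = single g (1 : ZMod p) • π l) ∧
    (∀ l : L, π l = 0 ↔ ∃ l' : L, l = p • l')

/-- Condition (N): for every (finitely generated) projective indecomposable `𝔽_pG`-module `P` the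
class `[P]` in `G_0(𝔽_pG)` is a sum (with non-negative integer coefficients) of classes of
reductions `[L/pL]` of simple `ℚG`-modules. -/
def ConditionN (p : ℕ) [Fact p.Prime] (G : Type) [Group G] : Prop :=
  ∀ (P : Type) [AddCommGroup P] [Module (MonoidAlgebra (ZMod p) G) P]
    [Module.Finite (MonoidAlgebra (ZMod p) G) P],
    Module.Projective (MonoidAlgebra (ZMod p) G) P →
    IsIndecomposable (MonoidAlgebra (ZMod p) G) P →
    cls (MonoidAlgebra (ZMod p) G) P ∈ AddSubmonoid.closure
      {c | ∃ (V : Type) (_ : AddCommGroup V) (_ : Module (MonoidAlgebra ℚ G) V)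
        (M : Type) (_ : AddCommGroup M) (_ : Module (MonoidAlgebra (ZMod p) G) M)
        (_ : Module.Finite (MonoidAlgebra (ZMod p) G) M),
        IsSimpleModule (MonoidAlgebra ℚ G) V ∧ IsReduction p G V M ∧
          c = cls (MonoidAlgebra (ZMod p) G) M}

/-! ### Grothendieck group -/

section G0
variable {R : Type} [Ring R]

theorem cls_exact {A B C : Type} [AddCommGroup A] [Module R A] [Module.Finite R A]
    [AddCommGroup B] [Module R B] [Module.Finite R B]
    [AddCommGroup C] [Module R C] [Module.Finite R C]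
    (f : A →ₗ[R] B) (g : B →ₗ[R] C) (hf : Function.Injective f) (hfg : Function.Exact f g)
    (hg : Function.Surjective g) : cls R B = cls R A + cls R C := by
  have h : FreeAbelianGroup.of (FGMod.mk (R := R) B) - FreeAbelianGroup.of (FGMod.mk A)
      - FreeAbelianGroup.of (FGMod.mk C) ∈ relations R :=
    AddSubgroup.subset_closure ⟨FGMod.mk A, FGMod.mk B, FGMod.mk C, f, g, hf, hfg, hg, rfl⟩
  have h2 := (QuotientAddGroup.eq_zero_iff _).2 h
  unfold cls
  have h3 : ((FreeAbelianGroup.of (FGMod.mk (R := R) B) - FreeAbelianGroup.of (FGMod.mk A)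
      - FreeAbelianGroup.of (FGMod.mk C) : FreeAbelianGroup (FGMod R)) : G0 R) =
      (FreeAbelianGroup.of (FGMod.mk (R := R) B) : G0 R) - (FreeAbelianGroup.of (FGMod.mk (R := R) A) : G0 R)
      - (FreeAbelianGroup.of (FGMod.mk (R := R) C) : G0 R) := rfl
  rw [h3] at h2
  rw [sub_sub, sub_eq_zero] at h2
  exact h2

theorem cls_zero (A : Type) [AddCommGroup A] [Module R A] [Module.Finite R A] [Subsingleton A] :
    cls R A = 0 := by
  have := cls_exact (R := R) (A := A) (B := A) (C := A) 0 0
    (Function.injective_of_subsingleton _) (fun x => by simp [Subsingleton.elim x 0])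
    (fun x => ⟨0, Subsingleton.elim _ _⟩)
  have h : cls R A + 0 = cls R A + cls R A := by rw [add_zero]; exact this
  exact (add_left_cancel h).symm

end G0

open Quaternion

section red
variable (p : ℕ) [hp : Fact p.Prime]

theorem den_ne (x : Zloc p) : ((x : ℚ).den : ZMod p) ≠ 0 := by
  intro h
  exact x.2 ((ZMod.natCast_eq_zero_iff _ _).1 h)

/-- reduction modulo `p` -/
noncomputable def red : Zloc p →+* ZMod p where
  toFun x := ((x : ℚ) : ZMod p)
  map_one' := by simp
  map_zero' := by simp
  map_mul' x y := Rat.cast_mul_of_ne_zero (den_ne p x) (den_ne p y)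
  map_add' x y := Rat.cast_add_of_ne_zero (den_ne p x) (den_ne p y)

theorem red_eq_zero (x : Zloc p) (h : red p x = 0) : ∃ y : Zloc p, x = p • y := by
  have h1 : (((x : ℚ).num : ZMod p)) / (((x : ℚ).den : ZMod p)) = 0 := by
    rw [← Rat.cast_def]; exact h
  have h2 : (((x : ℚ).num : ZMod p)) = 0 := by
    rcases div_eq_zero_iff.1 h1 with h | h
    · exact h
    · exact absurd h (den_ne p x)
  obtain ⟨m, hm⟩ := (ZMod.intCast_zmod_eq_zero_iff_dvd _ _).1 h2
  have hden : ((x : ℚ).den : ℚ) ≠ 0 := by exact_mod_cast (x : ℚ).den_nz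
  have hx : (x : ℚ) = p * (m / (x : ℚ).den) := by
    conv_lhs => rw [← Rat.num_div_den (x : ℚ)]
    rw [hm]
    push_cast
    ring
  refine ⟨⟨(m : ℚ) / (x : ℚ).den, ?_⟩, ?_⟩
  · show ¬ p ∣ ((m : ℚ) / (x : ℚ).den).den
    intro hd
    have h3 := Rat.den_dvd m ((x : ℚ).den : ℤ)
    rw [Rat.divInt_eq_div, Int.natCast_dvd_natCast] at h3
    exact x.2 (hd.trans (by simpa using h3))
  · apply Subtype.ext
    rw [nsmul_eq_mul]
    push_cast
    exact hx

end red

open Matrix

instance fact2 : Fact (Nat.Prime 2) := ⟨Nat.prime_two⟩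

/-- the order `ℤ_(2)[ω, j]` -/
abbrev Lam := ℍ[Zloc 2, -1, 1, -1]

theorem lam_eq_zero {a : Lam} (h : a * star a = 0) : a = 0 := by
  have h1 := congrArg QuaternionAlgebra.re h
  simp only [QuaternionAlgebra.re_mul, QuaternionAlgebra.re_star, QuaternionAlgebra.imI_star, QuaternionAlgebra.imJ_star, QuaternionAlgebra.imK_star, QuaternionAlgebra.re_zero] at h1
  have h2 := congrArg (Subtype.val) h1
  push_cast at h2
  obtain ⟨a1, a2, a3, a4⟩ := a
  simp only at h2
  have e : ((a1 : ℚ) + a2 / 2)^2 + 3 * (a2 : ℚ)^2/4 + ((a3 : ℚ) + a4 / 2)^2 + 3 * (a4 : ℚ)^2/4 = 0 := by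
    linear_combination h2
  have e2 : (a2 : ℚ) = 0 := by nlinarith [sq_nonneg ((a1 : ℚ) + a2 / 2), sq_nonneg (a2 : ℚ), sq_nonneg ((a3 : ℚ) + a4 / 2), sq_nonneg (a4 : ℚ)]
  have e4 : (a4 : ℚ) = 0 := by nlinarith [sq_nonneg ((a1 : ℚ) + a2 / 2), sq_nonneg (a2 : ℚ), sq_nonneg ((a3 : ℚ) + a4 / 2), sq_nonneg (a4 : ℚ)]
  rw [e2, e4] at e
  have e1 : (a1 : ℚ) = 0 := by nlinarith [sq_nonneg (a1 : ℚ), sq_nonneg (a3 : ℚ)]
  have e3 : (a3 : ℚ) = 0 := by nlinarith [sq_nonneg (a1 : ℚ), sq_nonneg (a3 : ℚ)]
  ext <;> simp [e1, e2, e3, e4]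

instance : NoZeroDivisors Lam := by
  refine ⟨?_⟩
  intro a b hab
  have h1 : a * (b * star b) = 0 := by rw [← mul_assoc, hab, zero_mul]
  rw [QuaternionAlgebra.mul_star_eq_coe] at h1
  have h2 : (b * star b).re • a = 0 := by
    rw [← h1]
    ext <;> simp [mul_comm]
  by_cases hr : (b * star b).re = 0
  · right
    apply lam_eq_zero
    rw [QuaternionAlgebra.mul_star_eq_coe, hr]
    rfl
  · left
    have h3 : ∀ t : Zloc 2, (b * star b).re * t = 0 → t = 0 := fun t ht =>
      (mul_eq_zero.1 ht).resolve_left hr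
    ext1
    · exact h3 _ (congrArg QuaternionAlgebra.re h2)
    · exact h3 _ (congrArg QuaternionAlgebra.imI h2)
    · exact h3 _ (congrArg QuaternionAlgebra.imJ h2)
    · exact h3 _ (congrArg QuaternionAlgebra.imK h2)
open QuaternionGroup

section qhom
variable {M : Type} [Monoid M] (α ξ : M)

def qfun : QuaternionGroup 3 → M
  | .a i => α ^ i.val
  | .xa i => ξ * α ^ i.val

variable {α ξ}

theorem pow_val_add (h6 : α ^ 6 = 1) (i j : ZMod (2 * 3)) :
    α ^ (i + j).val = α ^ i.val * α ^ j.val := by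
  rw [← pow_add, ZMod.val_add]
  exact (pow_eq_pow_mod _ h6).symm

theorem comm_pow (hax : α * ξ * α = ξ) (n : ℕ) : α ^ n * ξ * α ^ n = ξ := by
  induction n with
  | zero => simp
  | succ n ih =>
    calc α ^ (n + 1) * ξ * α ^ (n + 1) = α ^ n * (α * ξ * α) * α ^ n := by
          conv_lhs => rw [pow_succ α n]
          conv_lhs => enter [2]; rw [← pow_succ α n, pow_succ' α n]
          simp only [mul_assoc]
      _ = ξ := by rw [hax, ih]

theorem comm_val (h6 : α ^ 6 = 1) (hax : α * ξ * α = ξ) (i j : ZMod (2 * 3)) :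
    α ^ i.val * (ξ * α ^ j.val) = ξ * α ^ (j - i).val := by
  have h : j = i + (j - i) := by ring
  conv_lhs => rw [h]
  rw [pow_val_add h6, ← mul_assoc, ← mul_assoc, comm_pow hax]

def qhom (h6 : α ^ 6 = 1) (hx : ξ * ξ = α ^ 3) (hax : α * ξ * α = ξ) : QuaternionGroup 3 →* M where
  toFun := qfun α ξ
  map_one' := by
    rw [one_def]
    simp [qfun]
  map_mul' := by
    rintro (i | i) (j | j)
    · rw [a_mul_a]
      exact pow_val_add h6 i j
    · rw [a_mul_xa]
      exact (comm_val h6 hax i j).symm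
    · rw [xa_mul_a]
      show ξ * _ = ξ * _ * _
      rw [pow_val_add h6, mul_assoc]
      rfl
    · rw [xa_mul_xa]
      show α ^ _ = (ξ * α ^ _) * (ξ * α ^ _)
      rw [mul_assoc, comm_val h6 hax, ← mul_assoc, hx]
      have h : ((3 : ℕ) : ZMod (2 * 3)) + j - i = 3 + (j - i) := by push_cast; ring
      rw [h, pow_val_add h6]
      rfl

@[simp] theorem qhom_a (h6 : α ^ 6 = 1) (hx : ξ * ξ = α ^ 3) (hax : α * ξ * α = ξ) (i : ZMod (2 * 3)) :
    qhom h6 hx hax (a i) = α ^ i.val := rfl

@[simp] theorem qhom_xa (h6 : α ^ 6 = 1) (hx : ξ * ξ = α ^ 3) (hax : α * ξ * α = ξ) (i : ZMod (2 * 3)) :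
    qhom h6 hx hax (xa i) = ξ * α ^ i.val := rfl
end qhom

/-- idempotents lift along surjections out of a semisimple ring -/
theorem lift_of_semisimple {A B : Type} [Ring A] [Ring B] [IsSemisimpleRing A] (φ : A →+* B)
    (hφ : Function.Surjective φ) (b : B) (hb : IsIdempotentElem b) :
    ∃ a : A, IsIdempotentElem a ∧ φ a = b := by
  obtain ⟨L, hL⟩ := exists_isCompl (RingHom.ker φ : Submodule A A)
  obtain ⟨x, hx⟩ := hφ b
  have h1 : (1 : A) ∈ (RingHom.ker φ : Submodule A A) ⊔ L := by rw [hL.sup_eq_top]; trivial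
  obtain ⟨c, hc, c', hc', hcc⟩ := Submodule.mem_sup.1 h1
  have hφc : φ c = 0 := hc
  have hφc' : φ c' = 1 := by
    have := congrArg φ hcc
    simpa [hφc] using this
  refine ⟨x * c', ?_, by rw [map_mul, hφc', hx, mul_one]⟩
  have hmem : x * c' * (x * c') - x * c' ∈ (RingHom.ker φ : Submodule A A) ⊓ L := by
    refine ⟨?_, ?_⟩
    · show φ _ = 0
      simp only [map_sub, map_mul, hφc', hx, mul_one]
      rw [hb.eq, sub_self]
    · exact L.sub_mem (L.smul_mem (x * c') (L.smul_mem x hc')) (L.smul_mem x hc')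
  rw [hL.inf_eq_bot] at hmem
  exact sub_eq_zero.1 ((Submodule.mem_bot A).1 hmem)

theorem lift_of_semiperfect {R B : Type} [Ring R] [Ring B] (h : IsSemiperfect R) (φ : R →+* B)
    (hφ : Function.Surjective φ) (hB : Ring.jacobson B = ⊥) (b : B) (hb : IsIdempotentElem b) :
    ∃ a : R, IsIdempotentElem a ∧ φ a = b := by
  obtain ⟨h1, h2⟩ := h
  have := h1
  have hker : ∀ a ∈ Ring.jacobson R, φ a = 0 := by
    intro a ha
    have : RingHomSurjective φ := ⟨hφ⟩
    have := Ring.le_comap_jacobson φ ha
    rw [hB] at this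
    exact this
  let ψ : R ⧸ Ring.jacobson R →+* B := Ideal.Quotient.lift (Ring.jacobson R) φ hker
  have hψ : Function.Surjective ψ := by
    intro y
    obtain ⟨x, hx⟩ := hφ y
    exact ⟨Ideal.Quotient.mk _ x, by simp [ψ, hx]⟩
  obtain ⟨e, he, heb⟩ := lift_of_semisimple ψ hψ b hb
  obtain ⟨f, hf, hfe⟩ := h2 e he
  refine ⟨f, hf, ?_⟩
  rw [← heb, ← hfe]
  simp [ψ]

section notsp
open Matrix

/-- the sixth root of unity in `Lam` -/
def lamI : Lam := ⟨0, 1, 0, 0⟩
def lamJ : Lam := ⟨0, 0, 1, 0⟩

theorem lamI_sq : lamI * lamI = lamI - 1 := by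
  ext <;> simp [lamI]

theorem lamI_three : lamI ^ 3 = -1 := by
  have h : lamI ^ 3 = lamI * (lamI * lamI) := by rw [pow_succ', pow_two]
  rw [h, lamI_sq, mul_sub, lamI_sq, mul_one]
  abel

theorem lamI_six : lamI ^ 6 = 1 := by
  have : lamI ^ 6 = lamI ^ 3 * lamI ^ 3 := by rw [← pow_add]
  rw [this, lamI_three]; simp

theorem lamJ_sq : lamJ * lamJ = lamI ^ 3 := by
  rw [lamI_three]
  ext <;> simp [lamJ]

theorem lamIJI : lamI * lamJ * lamI = lamJ := by
  ext <;> simp [lamJ, lamI]

noncomputable def psi : MonoidAlgebra (Zloc 2) (QuaternionGroup 3) →ₐ[Zloc 2] Lam :=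
  MonoidAlgebra.lift (Zloc 2) Lam (QuaternionGroup 3) (qhom lamI_six lamJ_sq lamIJI)

theorem psi_single (g : QuaternionGroup 3) (r : Zloc 2) :
    psi (MonoidAlgebra.single g r) = r • qhom lamI_six lamJ_sq lamIJI g := by
  simp [psi]

noncomputable instance algZ : Algebra (Zloc 2) (ZMod 2) := (red 2).toAlgebra

noncomputable def basis : QuaternionAlgebra.Basis (Matrix (Fin 2) (Fin 2) (ZMod 2)) (-1 : Zloc 2) 1 (-1) where
  i := !![0, 1; 1, 1]
  j := !![1, 1; 0, 1]
  k := !![0, 1; 1, 0]
  i_mul_i := by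
    rw [neg_smul, one_smul, one_smul]
    decide
  j_mul_j := by
    rw [neg_smul, one_smul]
    decide
  i_mul_j := by decide
  j_mul_i := by
    rw [one_smul]
    decide

noncomputable def phi : Lam →ₐ[Zloc 2] Matrix (Fin 2) (Fin 2) (ZMod 2) := QuaternionAlgebra.lift basis

theorem smul_def' (r : Zloc 2) (m : Matrix (Fin 2) (Fin 2) (ZMod 2)) : r • m = red 2 r • m := by
  ext i j
  rfl

theorem phi_lamI : phi lamI = !![0, 1; 1, 1] := by
  show basis.lift lamI = _
  simp [QuaternionAlgebra.Basis.lift, lamI, basis]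

theorem phi_lamJ : phi lamJ = !![1, 1; 0, 1] := by
  show basis.lift lamJ = _
  simp [QuaternionAlgebra.Basis.lift, lamJ, basis]

theorem red_natCast (n : ℕ) : red 2 (n : Zloc 2) = (n : ZMod 2) := map_natCast _ n

theorem comb (m : Matrix (Fin 2) (Fin 2) (ZMod 2)) : ∃ c0 c1 c2 c3 : ZMod 2,
    m = c0 • 1 + c1 • !![0, 1; 1, 1] + c2 • !![1, 1; 0, 1] + c3 • (!![1, 1; 0, 1] * !![0, 1; 1, 1] ^ 5) := by
  refine ⟨m 0 0 - (m 0 1 - m 1 0), m 1 1 - m 0 0, m 0 1 - m 1 0, m 1 0 - (m 1 1 - m 0 0), ?_⟩
  have h5 : (!![1, 1; 0, 1] * !![0, 1; 1, 1] ^ 5 : Matrix (Fin 2) (Fin 2) (ZMod 2)) = !![0, 1; 1, 0] := by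
    decide
  rw [h5]
  ext i j
  fin_cases i <;> fin_cases j <;> simp <;> ring

theorem comp_surj : Function.Surjective (phi.toRingHom.comp psi.toRingHom) := by
  intro m
  obtain ⟨c0, c1, c2, c3, h⟩ := comb m
  refine ⟨MonoidAlgebra.single (a 0) (c0.val : Zloc 2) + MonoidAlgebra.single (a 1) (c1.val : Zloc 2) +
    MonoidAlgebra.single (xa 0) (c2.val : Zloc 2) + MonoidAlgebra.single (xa 5) (c3.val : Zloc 2), ?_⟩
  rw [h]
  show phi (psi _) = _
  have v1 : ((1 : ZMod (2 * 3))).val = 1 := rfl
  have v5 : ((5 : ZMod (2 * 3))).val = 5 := rfl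
  have v0 : ((0 : ZMod (2 * 3))).val = 0 := rfl
  simp only [map_add, psi_single, map_smul, qhom_a, qhom_xa, v1, v5, v0, pow_zero, pow_one, map_one,
    map_mul, map_pow, phi_lamI, phi_lamJ, smul_def', red_natCast, ZMod.natCast_zmod_val, mul_one]

theorem not_semiperfect : ¬ IsSemiperfect (MonoidAlgebra (Zloc 2) (QuaternionGroup 3)) := by
  intro h
  have hB : Ring.jacobson (Matrix (Fin 2) (Fin 2) (ZMod 2)) = ⊥ := IsSemisimpleRing.jacobson_eq_bot _
  obtain ⟨f, hf, hfe⟩ := lift_of_semiperfect h _ comp_surj hB !![1, 0; 0, 0]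
    (by unfold IsIdempotentElem; decide)
  have h2 : IsIdempotentElem (psi f) := hf.map psi
  rcases IsIdempotentElem.iff_eq_zero_or_one.1 h2 with h3 | h3
  · have : (!![1, 0; 0, 0] : Matrix (Fin 2) (Fin 2) (ZMod 2)) = 0 := by
      rw [← hfe]
      show phi (psi f) = 0
      rw [h3, map_zero]
    revert this
    decide
  · have : (!![1, 0; 0, 0] : Matrix (Fin 2) (Fin 2) (ZMod 2)) = 1 := by
      rw [← hfe]
      show phi (psi f) = 1
      rw [h3, map_one]
    revert this
    decide

end notsp

/-! ### Condition (N) -/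

section condN

theorem cls_mem {R : Type} [Ring R] (X : Set (G0 R))
    (hX : ∀ (S : Type) [AddCommGroup S] [Module R S] [Module.Finite R S],
      IsSimpleModule R S → cls R S ∈ X) (M : Type) [AddCommGroup M] [Module R M]
    (hM : IsFiniteLength R M) : ∀ [Module.Finite R M], cls R M ∈ AddSubmonoid.closure X := by
  induction hM with
  | of_subsingleton =>
    intro _
    rw [cls_zero]
    exact zero_mem _
  | @of_simple_quotient M _ _ N hs hN ih =>
    intro hfin
    have hN1 := (isFiniteLength_iff_isNoetherian_isArtinian.1 hN).1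
    have : Module.Finite R N := inferInstance
    have h := cls_exact (R := R) N.subtype N.mkQ N.injective_subtype
      (LinearMap.exact_subtype_mkQ N) N.mkQ_surjective
    rw [h]
    exact add_mem ih (AddSubmonoid.subset_closure (hX _ hs))

/-- the standard two-dimensional representation -/
noncomputable def matA (R : Type) [CommRing R] : Matrix (Fin 2) (Fin 2) R := !![0, -1; 1, -1]
noncomputable def matX (R : Type) [CommRing R] : Matrix (Fin 2) (Fin 2) R := !![1, -1; 0, -1]

theorem matA_three (R : Type) [CommRing R] : matA R ^ 3 = 1 := by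
  rw [pow_succ, pow_two]
  ext i j
  fin_cases i <;> fin_cases j <;> simp [matA, Matrix.mul_apply, Fin.sum_univ_two]

theorem matX_sq (R : Type) [CommRing R] : matX R * matX R = matA R ^ 3 := by
  rw [matA_three]
  ext i j
  fin_cases i <;> fin_cases j <;> simp [matX, Matrix.mul_apply, Fin.sum_univ_two]

theorem matAXA (R : Type) [CommRing R] : matA R * matX R * matA R = matX R := by
  ext i j
  fin_cases i <;> fin_cases j <;> simp [matX, matA, Matrix.mul_apply, Fin.sum_univ_two]

theorem matA_six (R : Type) [CommRing R] : matA R ^ 6 = 1 := by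
  have : matA R ^ 6 = matA R ^ 3 * matA R ^ 3 := by rw [← pow_add]
  rw [this, matA_three, one_mul]

noncomputable def rho (R : Type) [CommRing R] : Representation R (QuaternionGroup 3) (Fin 2 → R) :=
  (Matrix.toLinAlgEquiv' : Matrix (Fin 2) (Fin 2) R ≃ₐ[R] _).toAlgHom.toRingHom.toMonoidHom.comp
    (qhom (matA_six R) (matX_sq R) (matAXA R))

theorem rho_a (R : Type) [CommRing R] (v : Fin 2 → R) : rho R (a 1) v = ![- v 1, v 0 - v 1] := by
  have v1 : ((1 : ZMod (2 * 3))).val = 1 := rfl
  ext i
  fin_cases i <;> simp [rho, v1, matA, Matrix.vecHead, Matrix.vecTail] <;> ring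

theorem rho_x (R : Type) [CommRing R] (v : Fin 2 → R) : rho R (xa 0) v = ![v 0 - v 1, - v 1] := by
  have v0 : ((0 : ZMod (2 * 3))).val = 0 := rfl
  ext i
  fin_cases i <;> simp [rho, v0, matX, Matrix.vecHead, Matrix.vecTail] <;> ring


/-- the group algebra acts on `R²` through the representation `rho`. -/
@[reducible] noncomputable def modV (R : Type) [CommRing R] :
    Module (MonoidAlgebra R (QuaternionGroup 3)) (Fin 2 → R) :=
  Module.compHom (Fin 2 → R) ((rho R).asAlgebraHom : MonoidAlgebra R (QuaternionGroup 3) →+*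
    Module.End R (Fin 2 → R))

/-- the group algebra acts trivially on `R`. -/
@[reducible] noncomputable def modT (R : Type) [CommRing R] :
    Module (MonoidAlgebra R (QuaternionGroup 3)) R :=
  Module.compHom R ((Representation.trivial R (QuaternionGroup 3) R).asAlgebraHom :
    MonoidAlgebra R (QuaternionGroup 3) →+* Module.End R R)

theorem modV_smul (R : Type) [CommRing R] (g : QuaternionGroup 3) (t : R) (v : Fin 2 → R) :
    letI := modV R
    (MonoidAlgebra.single g t : MonoidAlgebra R (QuaternionGroup 3)) • v = t • rho R g v := by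
  show (rho R).asAlgebraHom (MonoidAlgebra.single g t) v = _
  rw [Representation.asAlgebraHom_single]
  rfl

theorem modT_smul (R : Type) [CommRing R] (g : QuaternionGroup 3) (t : R) (v : R) :
    letI := modT R
    (MonoidAlgebra.single g t : MonoidAlgebra R (QuaternionGroup 3)) • v = t * v := by
  show (Representation.trivial R (QuaternionGroup 3) R).asAlgebraHom (MonoidAlgebra.single g t) v = _
  rw [Representation.asAlgebraHom_single]
  simp

theorem triv_simple : letI := modT ℚ
    IsSimpleModule (MonoidAlgebra ℚ (QuaternionGroup 3)) ℚ := by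
  let _ := modT ℚ
  rw [isSimpleModule_iff_toSpanSingleton_surjective]
  refine ⟨inferInstance, ?_⟩
  intro v hv w
  refine ⟨MonoidAlgebra.single 1 (w / v), ?_⟩
  rw [LinearMap.toSpanSingleton_apply, modT_smul]
  exact div_mul_cancel₀ _ hv

theorem std_key (u : Fin 2 → ℚ) (hu : 2 * u 0 ≠ u 1) (w : Fin 2 → ℚ) : letI := modV ℚ
    ∃ r : MonoidAlgebra ℚ (QuaternionGroup 3), r • u = w := by
  let _ := modV ℚ
  set d := 2 * u 0 - u 1 with hd
  have hd0 : d ≠ 0 := sub_ne_zero.2 hu
  have he : (MonoidAlgebra.single 1 d⁻¹ * (MonoidAlgebra.single 1 1 + MonoidAlgebra.single (xa 0) 1) :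
      MonoidAlgebra ℚ (QuaternionGroup 3)) • u = ![1, 0] := by
    rw [mul_smul, add_smul, modV_smul, modV_smul, modV_smul, map_one, rho_x]
    ext i
    fin_cases i
    · simp [Matrix.vecHead]
      rw [← mul_inv_cancel₀ hd0, hd]
      ring
    · simp [Matrix.vecHead, Matrix.vecTail]
  refine ⟨(MonoidAlgebra.single 1 (w 0) + MonoidAlgebra.single (a 1) (w 1)) *
    (MonoidAlgebra.single 1 d⁻¹ * (MonoidAlgebra.single 1 1 + MonoidAlgebra.single (xa 0) 1)), ?_⟩
  rw [mul_smul, he, add_smul, modV_smul, modV_smul, map_one, rho_a]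
  ext i
  fin_cases i <;> simp

theorem std_simple : letI := modV ℚ
    IsSimpleModule (MonoidAlgebra ℚ (QuaternionGroup 3)) (Fin 2 → ℚ) := by
  let _ := modV ℚ
  rw [isSimpleModule_iff_toSpanSingleton_surjective]
  refine ⟨inferInstance, ?_⟩
  intro v hv w
  by_cases h : 2 * v 0 = v 1
  · have hv0 : v 0 ≠ 0 := by
      intro h0
      apply hv
      rw [h0, mul_zero] at h
      ext i
      fin_cases i
      · exact h0
      · exact h.symm
    obtain ⟨r, hr⟩ := std_key (rho ℚ (a 1) v) (by
      rw [rho_a]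
      simp
      intro h2
      apply hv0
      linarith) w
    refine ⟨r * MonoidAlgebra.single (a 1) 1, ?_⟩
    rw [LinearMap.toSpanSingleton_apply, mul_smul, modV_smul, one_smul]
    exact hr
  · obtain ⟨r, hr⟩ := std_key v h w
    exact ⟨r, hr⟩


/-! #### Simple modules in characteristic two -/

section simples
variable {S : Type} [AddCommGroup S] [Module (MonoidAlgebra (ZMod 2) (QuaternionGroup 3)) S]

/-- the group element `g` acting on `S` -/
noncomputable def act (g : QuaternionGroup 3) (s : S) : S :=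
  (MonoidAlgebra.single g 1 : MonoidAlgebra (ZMod 2) (QuaternionGroup 3)) • s

/-- scalar action on `S` -/
noncomputable def sc (c : ZMod 2) (s : S) : S :=
  (MonoidAlgebra.single 1 c : MonoidAlgebra (ZMod 2) (QuaternionGroup 3)) • s

theorem act_mul (g h : QuaternionGroup 3) (s : S) : act (g * h) s = act g (act h s) := by
  unfold act
  rw [← mul_smul, MonoidAlgebra.single_mul_single, one_mul]

theorem act_one (s : S) : act 1 s = s := by
  unfold act
  rw [← MonoidAlgebra.one_def, one_smul]

theorem act_add (g : QuaternionGroup 3) (s t : S) : act g (s + t) = act g s + act g t := by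
  unfold act
  rw [smul_add]

theorem act_zero (g : QuaternionGroup 3) : act g (0 : S) = 0 := by
  unfold act
  rw [smul_zero]

theorem sc_add (c : ZMod 2) (s t : S) : sc c (s + t) = sc c s + sc c t := by
  unfold sc
  rw [smul_add]

theorem add_sc (c d : ZMod 2) (s : S) : sc (c + d) s = sc c s + sc d s := by
  unfold sc
  rw [MonoidAlgebra.single_add, add_smul]

theorem sc_one (s : S) : sc 1 s = s := by
  unfold sc
  rw [← MonoidAlgebra.one_def, one_smul]

theorem sc_zero (s : S) : sc 0 s = 0 := by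
  unfold sc
  rw [MonoidAlgebra.single_zero, zero_smul]

theorem act_sc (g : QuaternionGroup 3) (c : ZMod 2) (s : S) : act g (sc c s) = sc c (act g s) := by
  unfold act sc
  rw [← mul_smul, ← mul_smul, MonoidAlgebra.single_mul_single, MonoidAlgebra.single_mul_single]
  simp

theorem smul_eq (g : QuaternionGroup 3) (c : ZMod 2) (s : S) :
    (MonoidAlgebra.single g c : MonoidAlgebra (ZMod 2) (QuaternionGroup 3)) • s = sc c (act g s) := by
  unfold act sc
  rw [← mul_smul, MonoidAlgebra.single_mul_single]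
  simp

theorem add_self' (s : S) : s + s = 0 := by
  have h := add_sc (1 : ZMod 2) 1 s
  rw [sc_one] at h
  rw [← h, show (1 : ZMod 2) + 1 = 0 by decide, sc_zero]

theorem gen_induction {p : QuaternionGroup 3 → Prop} (ha : p (a 1)) (hx : p (xa 0)) (h1 : p 1)
    (hm : ∀ g h, p g → p h → p (g * h)) (g : QuaternionGroup 3) : p g := by
  have hp : ∀ n : ℕ, p (a (n : ZMod (2 * 3))) := by
    intro n
    induction n with
    | zero => rw [Nat.cast_zero, a_zero]; exact h1
    | succ n ih =>
      have : (a ((n + 1 : ℕ) : ZMod (2 * 3)) : QuaternionGroup 3) = a (n : ZMod (2 * 3)) * a 1 := by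
        rw [a_mul_a]; push_cast; rfl
      rw [this]
      exact hm _ _ ih ha
  have hp' : ∀ i : ZMod (2 * 3), p (a i) := by
    intro i
    have := hp i.val
    rwa [ZMod.natCast_zmod_val] at this
  rcases g with i | i
  · exact hp' i
  · have : (xa i : QuaternionGroup 3) = xa 0 * a i := by rw [xa_mul_a, zero_add]
    rw [this]
    exact hm _ _ hx (hp' i)

variable [hS : IsSimpleModule (MonoidAlgebra (ZMod 2) (QuaternionGroup 3)) S]

omit hS in
theorem act_a_three_comm (r : MonoidAlgebra (ZMod 2) (QuaternionGroup 3)) (s : S) :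
    act (a 3) (r • s) = r • act (a 3) s := by
  unfold act
  rw [← mul_smul, ← mul_smul]
  congr 1
  induction r using MonoidAlgebra.induction_linear with
  | zero => simp
  | add f g hf hg => rw [mul_add, add_mul, hf, hg]
  | single g c =>
    rw [MonoidAlgebra.single_mul_single, MonoidAlgebra.single_mul_single, one_mul, mul_one]
    congr 1
    revert g
    decide

theorem act_z (s : S) : act (a 3) s = s := by
  let f : S →ₗ[MonoidAlgebra (ZMod 2) (QuaternionGroup 3)] S :=
    { toFun := fun s => act (a 3) s + s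
      map_add' := fun s t => by rw [act_add]; abel
      map_smul' := fun r s => by
        rw [act_a_three_comm, RingHom.id_apply, smul_add] }
  have hf : ∀ s, f (f s) = 0 := by
    intro s
    show act (a 3) (act (a 3) s + s) + (act (a 3) s + s) = 0
    rw [act_add, ← act_mul, a_mul_a, show (3 : ZMod (2 * 3)) + 3 = 0 by decide, a_zero, act_one]
    have h1 := add_self' s
    have h2 := add_self' (act (a 3) s)
    calc s + act (a 3) s + (act (a 3) s + s) = (s + s) + (act (a 3) s + act (a 3) s) := by abel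
      _ = 0 := by rw [h1, h2, add_zero]
  rcases LinearMap.bijective_or_eq_zero f with hb | h0
  · exfalso
    have : Nontrivial S := IsSimpleModule.nontrivial (MonoidAlgebra (ZMod 2) (QuaternionGroup 3)) S
    obtain ⟨t, ht⟩ := exists_ne (0 : S)
    apply ht
    apply hb.1
    apply hb.1
    rw [hf, map_zero, map_zero]
  · have h1 : f s = 0 := by rw [h0]; rfl
    have h2 : act (a 3) s + s = 0 := h1
    have h3 := add_self' s
    exact add_right_cancel (h2.trans h3.symm)


omit hS in
theorem act_of_gen (t : S) (ha : act (a 1) t = t) (hx : act (xa 0) t = t) (g : QuaternionGroup 3) :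
    act g t = t := by
  induction g using gen_induction with
  | ha => exact ha
  | hx => exact hx
  | h1 => exact act_one t
  | hm g h hg hh => rw [act_mul, hh, hg]

/-- the inclusion of `ℤ_(2)` into `ℚ` -/
def incl : Zloc 2 →+ ℚ := (Zloc 2).subtype.toAddMonoidHom

omit hS in
theorem num_mul_mem (q : ℚ) : ∃ n : ℕ, n ≠ 0 ∧ ∃ z : Zloc 2, ((z : Zloc 2) : ℚ) = n • q := by
  refine ⟨q.den, q.den_nz, (q.num : Zloc 2), ?_⟩
  rw [nsmul_eq_mul, mul_comm, Rat.mul_den_eq_num]
  push_cast
  rfl

theorem red_trivial (t : S) (ht : t ≠ 0) (hg : ∀ g, act g t = t) :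
    letI := modT ℚ
    IsReduction 2 (QuaternionGroup 3) ℚ S := by
  let _ := modT ℚ
  let _ := modT (Zloc 2)
  refine ⟨Zloc 2, inferInstance, modT (Zloc 2), incl,
    { toFun := fun p => sc (red 2 p) t
      map_zero' := by simp [sc_zero]
      map_add' := fun p q => by rw [map_add, add_sc] }, ?_, Subtype.val_injective, ?_, ?_, ?_, ?_, ?_⟩
  · refine Module.Finite.of_surjective
      (LinearMap.toSpanSingleton (MonoidAlgebra (Zloc 2) (QuaternionGroup 3)) (Zloc 2) 1) ?_
    intro r
    refine ⟨MonoidAlgebra.single 1 r, ?_⟩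
    rw [LinearMap.toSpanSingleton_apply, modT_smul, mul_one]
  · intro r g l
    rw [modT_smul, modT_smul]
    rfl
  · intro v
    obtain ⟨n, hn, z, hz⟩ := num_mul_mem v
    exact ⟨n, hn, z, hz⟩
  · intro s
    obtain ⟨r, hr⟩ := IsSimpleModule.toSpanSingleton_surjective
      (MonoidAlgebra (ZMod 2) (QuaternionGroup 3)) ht s
    rw [LinearMap.toSpanSingleton_apply] at hr
    rw [← hr]
    show ∃ p : Zloc 2, sc (red 2 p) t = r • t
    clear hr
    induction r using MonoidAlgebra.induction_linear with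
    | zero => exact ⟨0, by rw [map_zero, sc_zero, zero_smul]⟩
    | add f g hf hg =>
      obtain ⟨p, hp⟩ := hf
      obtain ⟨q, hq⟩ := hg
      exact ⟨p + q, by rw [map_add, add_sc, add_smul, hp, hq]⟩
    | single g c =>
      refine ⟨(c.val : Zloc 2), ?_⟩
      rw [smul_eq, hg, red_natCast, ZMod.natCast_zmod_val]
  · intro g l
    rw [modT_smul, one_mul]
    show sc _ t = act g (sc _ t)
    rw [act_sc, hg]
  · intro l
    show sc (red 2 l) t = 0 ↔ _
    constructor
    · intro h
      apply red_eq_zero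
      have : ∀ c : ZMod 2, c = 0 ∨ c = 1 := by decide
      rcases this (red 2 l) with h0 | h0
      · exact h0
      · rw [h0, sc_one] at h
        exact absurd h ht
    · rintro ⟨l', rfl⟩
      rw [map_nsmul]
      have : 2 • red 2 l' = 0 := by
        rw [nsmul_eq_mul]
        have : ((2 : ℕ) : ZMod 2) = 0 := by decide
        rw [this, zero_mul]
      rw [this, sc_zero]

theorem red_std (v : S) (hv : v ≠ 0) (hx : act (xa 0) v = v)
    (ht : v + act (a 1) v + act (a 2) v = 0) :
    letI := modV ℚ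
    IsReduction 2 (QuaternionGroup 3) (Fin 2 → ℚ) S := by
  let _ := modV ℚ
  let _ := modV (Zloc 2)
  set w := act (a 1) v with hw
  have haw : act (a 1) w = v + w := by
    rw [hw, ← act_mul, a_mul_a]
    have h1 : act (a (1 + 1)) v = act (a 2) v := rfl
    rw [h1]
    have h2 := add_self' (v + act (a 1) v)
    rw [← h2] at ht
    exact add_left_cancel ht
  have hxw : act (xa 0) w = v + w := by
    have h3 : act (xa 0) w = act (a 2) v := by
      calc act (xa 0) w = act (xa 0 * a 1) v := by rw [act_mul]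
        _ = act (a 5 * xa 0) v := by congr 1
        _ = act (a 5) v := by rw [act_mul, hx]
        _ = act (a 2 * a 3) v := by congr 1
        _ = act (a 2) v := by rw [act_mul, act_z]
    rw [h3]
    have h2 := add_self' (v + act (a 1) v)
    rw [← h2] at ht
    exact add_left_cancel ht
  have hw0 : w ≠ 0 := by
    intro h0
    rw [h0, act_zero] at haw
    exact hv (by simpa using haw.symm)
  have hwv : v + w ≠ 0 := by
    intro h0
    rw [h0] at haw
    have : act (a 5) (act (a 1) w) = 0 := by rw [haw, act_zero]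
    rw [← act_mul] at this
    have h6 : (a 5 * a 1 : QuaternionGroup 3) = 1 := by decide
    rw [h6, act_one] at this
    exact hw0 this
  let π : (Fin 2 → Zloc 2) →+ S :=
    { toFun := fun p => sc (red 2 (p 0)) v + sc (red 2 (p 1)) w
      map_zero' := by simp [sc_zero]
      map_add' := fun p q => by
        rw [Pi.add_apply, Pi.add_apply, map_add, map_add, add_sc, add_sc]
        abel }
  have hπ : ∀ p, π p = sc (red 2 (p 0)) v + sc (red 2 (p 1)) w := fun p => rfl
  have hact : ∀ (g : QuaternionGroup 3) (l : Fin 2 → Zloc 2), π (rho (Zloc 2) g l) = act g (π l) := by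
    intro g
    induction g using gen_induction with
    | ha =>
      intro l
      rw [rho_a, hπ, hπ, act_add, act_sc, act_sc, haw, ← hw, sc_add]
      have e1 : red 2 ((![- l 1, l 0 - l 1] : Fin 2 → Zloc 2) 0) = red 2 (l 1) := by
        simp
      have e2 : red 2 ((![- l 1, l 0 - l 1] : Fin 2 → Zloc 2) 1) = red 2 (l 0) + red 2 (l 1) := by
        rw [← CharTwo.sub_eq_add, ← map_sub]
        rfl
      rw [e1, e2, add_sc]
      abel
    | hx =>
      intro l
      rw [rho_x, hπ, hπ, act_add, act_sc, act_sc, hxw, hx, sc_add]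
      have e1 : red 2 ((![l 0 - l 1, - l 1] : Fin 2 → Zloc 2) 0) = red 2 (l 0) + red 2 (l 1) := by
        rw [← CharTwo.sub_eq_add, ← map_sub]
        rfl
      have e2 : red 2 ((![l 0 - l 1, - l 1] : Fin 2 → Zloc 2) 1) = red 2 (l 1) := by
        simp
      rw [e1, e2, add_sc]
      abel
    | h1 => intro l; rw [map_one, act_one]; rfl
    | hm g h hg hh => intro l; rw [map_mul, act_mul, ← hh, ← hg]; rfl
  refine ⟨Fin 2 → Zloc 2, inferInstance, modV (Zloc 2),
    { toFun := fun p i => (p i : ℚ)
      map_zero' := rfl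
      map_add' := fun p q => rfl }, π, ?_, ?_, ?_, ?_, ?_, ?_, ?_⟩
  · refine Module.Finite.of_surjective
      (LinearMap.toSpanSingleton (MonoidAlgebra (Zloc 2) (QuaternionGroup 3)) (Fin 2 → Zloc 2)
        ![1, 0]) ?_
    intro r
    refine ⟨MonoidAlgebra.single 1 (r 0) + MonoidAlgebra.single (a 1) (r 1), ?_⟩
    rw [LinearMap.toSpanSingleton_apply, add_smul, modV_smul, modV_smul, map_one, rho_a]
    ext i
    fin_cases i <;> simp
  · intro p q hpq
    ext i
    exact congrFun hpq i
  · intro r g l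
    rw [modV_smul, modV_smul]
    have : ∀ l : Fin 2 → Zloc 2, (fun i => ((rho (Zloc 2) g l i : Zloc 2) : ℚ)) =
        rho ℚ g (fun i => (l i : ℚ)) := by
      induction g using gen_induction with
      | ha =>
        intro l
        rw [rho_a, rho_a]
        ext i
        fin_cases i <;> simp
      | hx =>
        intro l
        rw [rho_x, rho_x]
        ext i
        fin_cases i <;> simp
      | h1 => intro l; rw [map_one, map_one]; rfl
      | hm g h hg hh => intro l; rw [map_mul, map_mul, Module.End.mul_apply, hg, hh]; rfl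
    show (fun i => ((r • (rho (Zloc 2)) g l : Fin 2 → Zloc 2) i : ℚ)) = _
    rw [show (fun i => ((r • (rho (Zloc 2)) g l : Fin 2 → Zloc 2) i : ℚ)) =
      (r : ℚ) • (fun i => ((rho (Zloc 2) g l i : Zloc 2) : ℚ)) from rfl, this]
    rfl
  · intro v
    obtain ⟨n, hn, z, hz⟩ := num_mul_mem (v 0)
    obtain ⟨n', hn', z', hz'⟩ := num_mul_mem (v 1)
    refine ⟨n * n', mul_ne_zero hn hn', ![n' • z, n • z'], ?_⟩
    ext i
    fin_cases i
    · simp [hz]
      ring
    · simp [hz']
      ring
  · intro s
    obtain ⟨r, hr⟩ := IsSimpleModule.toSpanSingleton_surjective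
      (MonoidAlgebra (ZMod 2) (QuaternionGroup 3)) hv s
    rw [LinearMap.toSpanSingleton_apply] at hr
    rw [← hr]
    clear hr
    induction r using MonoidAlgebra.induction_linear with
    | zero => exact ⟨0, by rw [map_zero, zero_smul]⟩
    | add f g hf hg =>
      obtain ⟨p, hp⟩ := hf
      obtain ⟨q, hq⟩ := hg
      exact ⟨p + q, by rw [map_add, add_smul, hp, hq]⟩
    | single g c =>
      refine ⟨rho (Zloc 2) g (![(c.val : Zloc 2), 0]), ?_⟩
      rw [hact, hπ, smul_eq]
      simp only [Matrix.cons_val_zero, Matrix.cons_val_one]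
      rw [red_natCast, ZMod.natCast_zmod_val, map_zero, sc_zero, add_zero, act_sc]
  · intro g l
    rw [modV_smul, one_smul]
    exact hact g l
  · intro l
    rw [hπ]
    constructor
    · intro h
      have h01 : ∀ c : ZMod 2, c = 0 ∨ c = 1 := by decide
      have h2 : red 2 (l 0) = 0 ∧ red 2 (l 1) = 0 := by
        rcases h01 (red 2 (l 0)) with h0 | h0 <;> rcases h01 (red 2 (l 1)) with h1 | h1
        · exact ⟨h0, h1⟩
        · rw [h0, h1, sc_zero, sc_one, zero_add] at h
          exact absurd h hw0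
        · rw [h0, h1, sc_zero, sc_one, add_zero] at h
          exact absurd h hv
        · rw [h0, h1, sc_one, sc_one] at h
          exact absurd h hwv
      obtain ⟨y0, hy0⟩ := red_eq_zero 2 _ h2.1
      obtain ⟨y1, hy1⟩ := red_eq_zero 2 _ h2.2
      refine ⟨![y0, y1], ?_⟩
      ext i
      fin_cases i
      · simp [hy0]
      · simp [hy1]
    · rintro ⟨l', rfl⟩
      have h2 : ∀ z : Zloc 2, red 2 (2 • z) = 0 := by
        intro z
        rw [map_nsmul, nsmul_eq_mul, show ((2 : ℕ) : ZMod 2) = 0 by decide, zero_mul]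
      rw [Pi.smul_apply, Pi.smul_apply, h2, h2, sc_zero, sc_zero, add_zero]

theorem simple_reduction [Module.Finite (MonoidAlgebra (ZMod 2) (QuaternionGroup 3)) S] :
    ∃ (V : Type) (_ : AddCommGroup V) (_ : Module (MonoidAlgebra ℚ (QuaternionGroup 3)) V),
      IsSimpleModule (MonoidAlgebra ℚ (QuaternionGroup 3)) V ∧
        IsReduction 2 (QuaternionGroup 3) V S := by
  have : Nontrivial S := IsSimpleModule.nontrivial (MonoidAlgebra (ZMod 2) (QuaternionGroup 3)) S
  obtain ⟨s, hs⟩ := exists_ne (0 : S)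
  have hxx : ∀ u : S, act (xa 0) (act (xa 0) u) = u := by
    intro u
    rw [← act_mul]
    exact act_z u
  obtain ⟨v, hv, hxv⟩ : ∃ v : S, v ≠ 0 ∧ act (xa 0) v = v := by
    by_cases h : act (xa 0) s + s = 0
    · refine ⟨s, hs, ?_⟩
      rw [← add_self' s] at h
      exact add_right_cancel h
    · refine ⟨_, h, ?_⟩
      rw [act_add, hxx, add_comm]
  by_cases ht : v + act (a 1) v + act (a 2) v = 0
  · exact ⟨Fin 2 → ℚ, inferInstance, modV ℚ, std_simple, red_std v hv hxv ht⟩
  · refine ⟨ℚ, inferInstance, modT ℚ, triv_simple, red_trivial _ ht (act_of_gen _ ?_ ?_)⟩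
    · rw [act_add, act_add, ← act_mul, ← act_mul]
      have e1 : act (a 1 * a 1) v = act (a 2) v := rfl
      have e2 : act (a 1 * a 2) v = v := act_z v
      rw [e1, e2]
      abel
    · rw [act_add, act_add, ← act_mul, ← act_mul, hxv]
      have e1 : act (xa 0 * a 1) v = act (a 2) v := by
        calc act (xa 0 * a 1) v = act (a 5 * xa 0) v := by congr 1
          _ = act (a 5) v := by rw [act_mul, hxv]
          _ = act (a 2 * a 3) v := by congr 1
          _ = act (a 2) v := by rw [act_mul, act_z]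
      have e2 : act (xa 0 * a 2) v = act (a 1) v := by
        calc act (xa 0 * a 2) v = act (a 4 * xa 0) v := by congr 1
          _ = act (a 4) v := by rw [act_mul, hxv]
          _ = act (a 1 * a 3) v := by congr 1
          _ = act (a 1) v := by rw [act_mul, act_z]
      rw [e1, e2]
      abel

end simples


theorem conditionN : ConditionN 2 (QuaternionGroup 3) := by
  intro P _ _ hfin _ _
  have hart : IsArtinianRing (MonoidAlgebra (ZMod 2) (QuaternionGroup 3)) :=
    IsArtinianRing.of_finite (ZMod 2) _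
  refine cls_mem _ ?_ P ?_
  · intro S _ _ _ hS
    obtain ⟨V, iV, mV, hV, hr⟩ := simple_reduction (S := S)
    exact ⟨V, iV, mV, S, _, _, _, hV, hr, rfl⟩
  · rw [isFiniteLength_iff_isNoetherian_isArtinian]
    exact ⟨inferInstance, inferInstance⟩

end condN

/-- **Condition (N) does not imply semiperfectness.**  For the dicyclic group `G` of order twelve
(`QuaternionGroup 3`) and `p = 2`, condition (N) holds, but `ℤ_(2)G` is not semiperfect. -/
theorem result : ConditionN 2 (QuaternionGroup 3) ∧
    ¬ IsSemiperfect (MonoidAlgebra (Zloc 2) (QuaternionGroup 3)) :=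
  ⟨conditionN, not_semiperfect⟩

end Pool.Agent.Results.MP_70eb0a_al.DicyclicTwelve
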